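import Pool.Agent.Helper65.KH.Goals

set_option autoImplicit false

namespace Pool.Agent.Helper48.KH.FN

open Pool.Agent.Helper65.KH

theorem t : S_FN := by
  intro ι _ _ V θ hV hθ
  obtain ⟨h0, hm⟩ := hV
  choose m hm0 hmV using hm
  -- lower bound on the coordinates
  have hw : ∀ w ∈ LL V, ∀ i, 1 / (m i : ℝ) ≤ w i := by
    intro w hw i
    have h1 := hw _ (hmV i)
    have h2 : dt w (cv (Pi.single i (m i) : ι → ℕ)) = w i * m i := by
      unfold dt cv
      rw [Finset.sum_eq_single i]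
      · simp
      · intro j _ hj
        simp [Pi.single_eq_of_ne hj]
      · intro h
        exact absurd (Finset.mem_univ i) h
    rw [h2] at h1
    have h3 : (0 : ℝ) < m i := by exact_mod_cast hm0 i
    rw [div_le_iff₀ h3]
    exact h1
  have hw0 : ∀ w ∈ LL V, ∀ i, 0 ≤ w i := by
    intro w h i
    have h3 : (0 : ℝ) < m i := by exact_mod_cast hm0 i
    exact le_trans (by positivity) (hw w h i)
  have hone : (fun _ => (1 : ℝ)) ∈ LL V := by
    intro v hv
    have hv0 : v ≠ 0 := by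
      intro h
      exact h0 (h ▸ hv)
    obtain ⟨i, hi⟩ : ∃ i, v i ≠ 0 := by
      by_contra hcon
      push Not at hcon
      exact hv0 (funext hcon)
    have h1 : (1 : ℝ) ≤ (v i : ℝ) := by
      exact_mod_cast Nat.one_le_iff_ne_zero.2 hi
    have h2 : (v i : ℝ) ≤ ∑ j, (v j : ℝ) :=
      Finset.single_le_sum (f := fun j => (v j : ℝ)) (fun j _ => Nat.cast_nonneg _) (Finset.mem_univ i)
    unfold dt cv
    simp only [one_mul]
    linarith
  have hbdd : ∀ x : ι → ℝ, (∀ i, 0 ≤ x i) → BddBelow ((fun w => dt w x) '' LL V) := by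
    intro x hx
    refine ⟨0, ?_⟩
    rintro _ ⟨w, hwL, rfl⟩
    exact Finset.sum_nonneg fun i _ => mul_nonneg (hw0 w hwL i) (hx i)
  have hne : ∀ x : ι → ℝ, ((fun w => dt w x) '' LL V).Nonempty := fun x => ⟨_, _, hone, rfl⟩
  have hpθ : ∀ (p : ι → ℕ) (i : ι), 0 ≤ (p i : ℝ) + θ i := fun p i =>
    add_nonneg (Nat.cast_nonneg _) (hθ i).le
  set c : ℝ := 1 / ((∑ i, (m i : ℝ)) + 1) with hc
  have hS : 0 ≤ ∑ i, (m i : ℝ) := Finset.sum_nonneg fun i _ => Nat.cast_nonneg _
  have hcpos : 0 < c := by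
    rw [hc]
    positivity
  have hcm : ∀ i, c ≤ 1 / (m i : ℝ) := by
    intro i
    have h3 : (0 : ℝ) < m i := by exact_mod_cast hm0 i
    have h4 : (m i : ℝ) ≤ ∑ j, (m j : ℝ) :=
      Finset.single_le_sum (f := fun j => (m j : ℝ)) (fun j _ => Nat.cast_nonneg _) (Finset.mem_univ i)
    rw [hc]
    exact one_div_le_one_div_of_le h3 (by linarith)
  have hlow : ∀ p : ι → ℕ, c * ∑ i, (p i : ℝ) ≤ dg V θ p := by
    intro p
    unfold dg rr
    refine le_csInf (hne _) ?_
    rintro _ ⟨w, hwL, rfl⟩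
    unfold dt
    rw [Finset.mul_sum]
    refine Finset.sum_le_sum fun i _ => ?_
    have h1 : c ≤ w i := le_trans (hcm i) (hw w hwL i)
    have h2 : (0 : ℝ) ≤ (p i : ℝ) := Nat.cast_nonneg _
    have h3 : (p i : ℝ) ≤ (p i : ℝ) + θ i := by linarith [hθ i]
    exact mul_le_mul h1 h3 h2 (hw0 w hwL i)
  refine ⟨?_, ⟨c, hcpos, hlow⟩, ?_, ?_⟩
  · intro t
    obtain ⟨k, hk⟩ := exists_nat_gt (t / c)
    refine (Set.finite_Iic (fun _ : ι => k)).subset ?_
    intro p hp
    have h1 : dg V θ p < t := hp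
    have h2 := hlow p
    rw [Set.mem_Iic]
    intro i
    have h4 : (p i : ℝ) ≤ ∑ j, (p j : ℝ) :=
      Finset.single_le_sum (f := fun j => (p j : ℝ)) (fun j _ => Nat.cast_nonneg _) (Finset.mem_univ i)
    have h5 : c * (p i : ℝ) < t := lt_of_le_of_lt (le_trans (mul_le_mul_of_nonneg_left h4 hcpos.le) h2) h1
    have h6 : (p i : ℝ) < t / c := by
      rw [lt_div_iff₀ hcpos]
      linarith
    have h7 : (p i : ℝ) < (k : ℝ) := lt_trans h6 hk
    exact_mod_cast h7.le
  · intro p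
    unfold dg rr
    refine le_trans (csInf_le (hbdd _ (hpθ p)) ⟨_, hone, rfl⟩) (le_of_eq ?_)
    unfold dt
    simp
  · intro p q
    unfold dg rr
    refine le_csInf (hne _) ?_
    rintro _ ⟨w, hwL, rfl⟩
    refine le_trans (csInf_le (hbdd _ (hpθ p)) ⟨w, hwL, rfl⟩) ?_
    unfold dt
    refine Finset.sum_le_sum fun i _ => ?_
    refine mul_le_mul_of_nonneg_left ?_ (hw0 w hwL i)
    have : (0 : ℝ) ≤ (q i : ℝ) := Nat.cast_nonneg _
    simp only [Pi.add_apply, Nat.cast_add]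
    linarith

end Pool.Agent.Helper48.KH.FN
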